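import Pool.Agent.W622.BK.Stm

/-! Project BK (MP_7e1e73_al): part REP, a representation of the free Lie algebra. -/

set_option autoImplicit false

namespace Pool.Agent.W612.BK
open Module Pool.Agent.W622.BK

universe u

theorem exQ (k : Type u) [Field k] (M : Type u) [AddCommMonoid M] [Module k M]
    (S : Submodule k M) :
    ∃ (Q : Type u) (_ : AddCommGroup Q) (_ : Module k Q) (q : M →ₗ[k] Q) (s : Q →ₗ[k] M),
      (∀ t, q t = 0 ↔ t ∈ S) ∧ ∀ x, q (s x) = x := by
  let _ : AddCommGroup M := Module.addCommMonoidToAddCommGroup k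
  obtain ⟨s, hs⟩ := S.mkQ.exists_rightInverse_of_surjective (Submodule.range_mkQ S)
  refine ⟨M ⧸ S, inferInstance, inferInstance, S.mkQ, s, fun t => ?_, fun x => ?_⟩
  · rw [Submodule.mkQ_apply, Submodule.Quotient.mk_eq_zero]
  · have h := LinearMap.congr_fun hs x
    rw [LinearMap.comp_apply, LinearMap.id_apply] at h
    exact h

section Brackets

variable {k : Type u} [Field k] {L : Type u} [LieRing L] [LieAlgebra k L]
variable {E : Type u} [AddCommGroup E] [Module k E] [FiniteDimensional k E]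

/-- `Br` as a linear map -/
noncomputable def BrL (j : (E →ₗ[k] k) →ₗ[k] L) : (E →ₗ[k] E →ₗ[k] k) →ₗ[k] L where
  toFun := Br j
  map_add' a b := by
    unfold Br
    rw [← Finset.sum_add_distrib]
    refine Finset.sum_congr rfl fun i _ => ?_
    rw [LinearMap.add_apply, map_add, lie_add]
  map_smul' c a := by
    unfold Br
    rw [RingHom.id_apply, Finset.smul_sum]
    refine Finset.sum_congr rfl fun i _ => ?_
    rw [LinearMap.smul_apply, map_smul, lie_smul]

/-- `Br3` as a linear map -/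
noncomputable def Br3L (j : (E →ₗ[k] k) →ₗ[k] L) :
    (E →ₗ[k] E →ₗ[k] E →ₗ[k] k) →ₗ[k] L where
  toFun := Br3 j
  map_add' a b := by
    unfold Br3
    rw [← Finset.sum_add_distrib]
    refine Finset.sum_congr rfl fun i _ => ?_
    have h : (a + b).compr₂ (LinearMap.applyₗ (finBasis k E i)) =
        a.compr₂ (LinearMap.applyₗ (finBasis k E i)) +
        b.compr₂ (LinearMap.applyₗ (finBasis k E i)) := by
      ext e e'
      simp
    rw [h]
    have h2 := (BrL j).map_add (a.compr₂ (LinearMap.applyₗ (finBasis k E i)))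
      (b.compr₂ (LinearMap.applyₗ (finBasis k E i)))
    change Br j _ = Br j _ + Br j _ at h2
    rw [h2, add_lie]
  map_smul' c a := by
    unfold Br3
    rw [RingHom.id_apply, Finset.smul_sum]
    refine Finset.sum_congr rfl fun i _ => ?_
    have h : (c • a).compr₂ (LinearMap.applyₗ (finBasis k E i)) =
        c • a.compr₂ (LinearMap.applyₗ (finBasis k E i)) := by
      ext e e'
      simp
    rw [h]
    have h2 := (BrL j).map_smul c (a.compr₂ (LinearMap.applyₗ (finBasis k E i)))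
    change Br j _ = c • Br j _ at h2
    rw [h2, smul_lie]

theorem sum_coord (j : (E →ₗ[k] k) →ₗ[k] L) (x : E →ₗ[k] k) :
    ∑ i, x (finBasis k E i) • j ((finBasis k E).coord i) = j x := by
  have h := (finBasis k E).sum_dual_apply_smul_coord x
  conv_rhs => rw [← h]
  rw [map_sum]
  exact Finset.sum_congr rfl fun i _ => (map_smul j _ _).symm

theorem Br_tens (j : (E →ₗ[k] k) →ₗ[k] L) (x y : E →ₗ[k] k) :
    Br j (x.smulRight y) = ⁅j x, j y⁆ := by
  unfold Br
  rw [← sum_coord j x, sum_lie]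
  refine Finset.sum_congr rfl fun i _ => ?_
  rw [LinearMap.smulRight_apply, map_smul, lie_smul, smul_lie]

theorem Br3_tens (j : (E →ₗ[k] k) →ₗ[k] L) (x y z : E →ₗ[k] k) :
    Br3 j (x.smulRight (y.smulRight z)) = ⁅⁅j x, j y⁆, j z⁆ := by
  unfold Br3
  rw [← sum_coord j z, lie_sum]
  refine Finset.sum_congr rfl fun i _ => ?_
  have h : (x.smulRight (y.smulRight z)).compr₂ (LinearMap.applyₗ (finBasis k E i)) =
      z (finBasis k E i) • (x.smulRight y) := by
    ext e e'
    simp only [LinearMap.compr₂_apply, LinearMap.smulRight_apply, LinearMap.applyₗ_apply_apply,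
      LinearMap.smul_apply, smul_eq_mul]
    ring
  rw [h]
  have h2 := (BrL j).map_smul (z (finBasis k E i)) (x.smulRight y)
  change Br j _ = _ • Br j _ at h2
  rw [h2, Br_tens, smul_lie, lie_smul]

end Brackets

section DecPart

variable {k : Type u} [Field k] {E : Type u} [AddCommGroup E] [Module k E]
variable (R : Submodule k (E →ₗ[k] E →ₗ[k] k)) (X : Submodule k (E →ₗ[k] k))

theorem Dec_add {t t' : E → E → E → k} (h : Dec R X t) (h' : Dec R X t') :
    Dec R X (fun a e e' => t a e e' + t' a e e') := by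
  obtain ⟨s, p, h1, h2, h3, h4⟩ := h
  obtain ⟨s', p', h1', h2', h3', h4'⟩ := h'
  refine ⟨s + s', p + p', fun a e e' => ?_, fun e' => ?_, fun a => ?_, fun e e' => ?_⟩
  · beta_reduce
    rw [h1, h1']
    simp only [LinearMap.add_apply]
    ring
  · have h : (s + s').compr₂ (LinearMap.applyₗ e') =
        s.compr₂ (LinearMap.applyₗ e') + s'.compr₂ (LinearMap.applyₗ e') := by
      ext a e
      simp
    rw [h]
    exact Submodule.add_mem _ (h2 e') (h2' e')
  · rw [LinearMap.add_apply]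
    exact Submodule.add_mem _ (h3 a) (h3' a)
  · have h : ((p + p').flip e).flip e' = (p.flip e).flip e' + (p'.flip e).flip e' := by
      ext a
      simp
    rw [h]
    exact Submodule.add_mem _ (h4 e e') (h4' e e')

theorem Dec_smul {t : E → E → E → k} (c : k) (h : Dec R X t) :
    Dec R X (fun a e e' => c * t a e e') := by
  obtain ⟨s, p, h1, h2, h3, h4⟩ := h
  refine ⟨c • s, c • p, fun a e e' => ?_, fun e' => ?_, fun a => ?_, fun e e' => ?_⟩
  · beta_reduce
    rw [h1]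
    simp only [LinearMap.smul_apply, smul_eq_mul]
    ring
  · have h : (c • s).compr₂ (LinearMap.applyₗ e') = c • s.compr₂ (LinearMap.applyₗ e') := by
      ext a e
      simp
    rw [h]
    exact Submodule.smul_mem _ c (h2 e')
  · rw [LinearMap.smul_apply]
    exact Submodule.smul_mem _ c (h3 a)
  · have h : ((c • p).flip e).flip e' = c • (p.flip e).flip e' := by
      ext a
      simp
    rw [h]
    exact Submodule.smul_mem _ c (h4 e e')

/-- the submodule of decomposable trilinear forms -/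
def DecS : Submodule k (E →ₗ[k] E →ₗ[k] E →ₗ[k] k) where
  carrier := {t | Dec R X (fun a e e' => t a e e')}
  add_mem' := fun {a b} ha hb => Dec_add R X ha hb
  zero_mem' := ⟨0, 0, fun a e e' => by simp, fun e' => by
      have h : (0 : E →ₗ[k] E →ₗ[k] E →ₗ[k] k).compr₂ (LinearMap.applyₗ e') =
          (0 : E →ₗ[k] E →ₗ[k] k) := by ext a e; simp
      rw [h]; exact Submodule.zero_mem _, fun a => by
      rw [LinearMap.zero_apply]; exact Submodule.zero_mem _, fun e e' => by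
      have h : ((0 : E →ₗ[k] E →ₗ[k] E →ₗ[k] k).flip e).flip e' = 0 := by ext a; simp
      rw [h]; exact Submodule.zero_mem _⟩
  smul_mem' := fun c {a} ha => Dec_smul R X c ha

variable {R X}

theorem DecS_left {x : E →ₗ[k] k} (hx : x ∈ X) {β : E →ₗ[k] E →ₗ[k] k} (hβ : β ∈ R) :
    x.smulRight β ∈ DecS R X := by
  refine ⟨0, x.smulRight β, fun a e e' => by simp, fun e' => ?_, fun a => ?_, fun e e' => ?_⟩
  · have h : (0 : E →ₗ[k] E →ₗ[k] E →ₗ[k] k).compr₂ (LinearMap.applyₗ e') =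
        (0 : E →ₗ[k] E →ₗ[k] k) := by ext a e; simp
    rw [h]; exact Submodule.zero_mem _
  · rw [LinearMap.smulRight_apply]
    exact Submodule.smul_mem _ _ hβ
  · have h : ((x.smulRight β).flip e).flip e' = β e e' • x := by
      ext a
      simp only [LinearMap.flip_apply, LinearMap.smulRight_apply, LinearMap.smul_apply,
        smul_eq_mul]
      ring
    rw [h]
    exact Submodule.smul_mem _ _ hx

/-- `β ⊗ z` -/
noncomputable def tz (β : E →ₗ[k] E →ₗ[k] k) (z : E →ₗ[k] k) : E →ₗ[k] E →ₗ[k] E →ₗ[k] k :=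
  β.compr₂ (LinearMap.toSpanSingleton k (E →ₗ[k] k) z)

theorem tz_apply (β : E →ₗ[k] E →ₗ[k] k) (z : E →ₗ[k] k) (a e e' : E) :
    tz β z a e e' = β a e * z e' := by
  simp [tz, LinearMap.toSpanSingleton_apply]

theorem DecS_right {β : E →ₗ[k] E →ₗ[k] k} (hβ : β ∈ Rx R X) (z : E →ₗ[k] k) :
    tz β z ∈ DecS R X := by
  refine ⟨tz β z, 0, fun a e e' => by simp, fun e' => ?_, fun a => ?_, fun e e' => ?_⟩
  · have h : (tz β z).compr₂ (LinearMap.applyₗ e') = z e' • β := by
      ext a e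
      simp only [LinearMap.compr₂_apply, LinearMap.applyₗ_apply_apply, tz_apply,
        LinearMap.smul_apply, smul_eq_mul]
      ring
    rw [h]
    exact Submodule.smul_mem _ _ hβ
  · rw [LinearMap.zero_apply]; exact Submodule.zero_mem _
  · have h : ((0 : E →ₗ[k] E →ₗ[k] E →ₗ[k] k).flip e).flip e' = 0 := by ext a; simp
    rw [h]; exact Submodule.zero_mem _

end DecPart

section Rep

variable {k : Type u} [Field k] {E : Type u} [AddCommGroup E] [Module k E]
variable {Q2 Q3 : Type u} [AddCommGroup Q2] [Module k Q2] [AddCommGroup Q3] [Module k Q3]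

/-- left multiplication by `x` -/
noncomputable def ell (q2 : (E →ₗ[k] E →ₗ[k] k) →ₗ[k] Q2) (s2 : Q2 →ₗ[k] (E →ₗ[k] E →ₗ[k] k))
    (q3 : (E →ₗ[k] E →ₗ[k] E →ₗ[k] k) →ₗ[k] Q3) (x : E →ₗ[k] k) :
    Module.End k (k × (E →ₗ[k] k) × Q2 × Q3) where
  toFun w := (0, w.1 • x, q2 (x.smulRight w.2.1), q3 (x.smulRight (s2 w.2.2.1)))
  map_add' v w := by
    have h1 : x.smulRight (v.2.1 + w.2.1) = x.smulRight v.2.1 + x.smulRight w.2.1 := by
      ext a e; simp
    have h2 : x.smulRight (s2 v.2.2.1 + s2 w.2.2.1) =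
        x.smulRight (s2 v.2.2.1) + x.smulRight (s2 w.2.2.1) := by
      ext a e e'; simp
    simp only [Prod.fst_add, Prod.snd_add, add_smul, map_add, h1, h2, Prod.mk_add_mk, add_zero]
  map_smul' c w := by
    have h1 : x.smulRight (c • w.2.1) = c • x.smulRight w.2.1 := by
      ext a e; simp only [LinearMap.smulRight_apply, LinearMap.smul_apply, smul_eq_mul]; ring
    have h2 : x.smulRight (c • s2 w.2.2.1) = c • x.smulRight (s2 w.2.2.1) := by
      ext a e e'; simp only [LinearMap.smulRight_apply, LinearMap.smul_apply, smul_eq_mul]; ring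
    simp only [Prod.smul_fst, Prod.smul_snd, smul_eq_mul, mul_smul, map_smul, h1, h2,
      Prod.smul_mk, mul_zero, RingHom.id_apply]

/-- instance shortcut -/
@[reducible] noncomputable def instLR (k : Type u) [Field k] (E : Type u) [AddCommGroup E]
    [Module k E] (Q2 Q3 : Type u) [AddCommGroup Q2] [Module k Q2] [AddCommGroup Q3]
    [Module k Q3] : LieRing (Module.End k (k × (E →ₗ[k] k) × Q2 × Q3)) :=
  LieRing.ofAssociativeRing

attribute [local instance] instLR

/-- instance shortcut -/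
@[reducible] noncomputable def instLA (k : Type u) [Field k] (E : Type u) [AddCommGroup E]
    [Module k E] (Q2 Q3 : Type u) [AddCommGroup Q2] [Module k Q2] [AddCommGroup Q3]
    [Module k Q3] : LieAlgebra k (Module.End k (k × (E →ₗ[k] k) × Q2 × Q3)) :=
  LieAlgebra.ofAssociativeAlgebra

attribute [local instance] instLA

theorem lie_end (f g : Module.End k (k × (E →ₗ[k] k) × Q2 × Q3))
    (w : k × (E →ₗ[k] k) × Q2 × Q3) : ⁅f, g⁆ w = f (g w) - g (f w) := rfl

variable {q2 : (E →ₗ[k] E →ₗ[k] k) →ₗ[k] Q2} {s2 : Q2 →ₗ[k] (E →ₗ[k] E →ₗ[k] k)}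
  {q3 : (E →ₗ[k] E →ₗ[k] E →ₗ[k] k) →ₗ[k] Q3}

theorem ell_apply (x : E →ₗ[k] k) (w : k × (E →ₗ[k] k) × Q2 × Q3) :
    ell q2 s2 q3 x w = (0, w.1 • x, q2 (x.smulRight w.2.1), q3 (x.smulRight (s2 w.2.2.1))) := rfl

variable {R : Submodule k (E →ₗ[k] E →ₗ[k] k)} {X : Submodule k (E →ₗ[k] k)}

/-- `x ∧ y` -/
noncomputable def wd (x y : E →ₗ[k] k) : E →ₗ[k] E →ₗ[k] k :=
  x.smulRight y + (-1 : k) • y.smulRight x

theorem wd_apply (x y : E →ₗ[k] k) (a e : E) : wd x y a e = x a * y e - y a * x e := by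
  simp only [wd, LinearMap.add_apply, LinearMap.smul_apply, LinearMap.smulRight_apply,
    smul_eq_mul]
  ring

theorem q3_s2 (h2 : ∀ t, q2 t = 0 ↔ t ∈ R) (hs : ∀ x, q2 (s2 x) = x)
    (h3 : ∀ t, q3 t = 0 ↔ t ∈ DecS R X) {x : E →ₗ[k] k} (hx : x ∈ X)
    (ψ : E →ₗ[k] E →ₗ[k] k) : q3 (x.smulRight (s2 (q2 ψ))) = q3 (x.smulRight ψ) := by
  have h4 : s2 (q2 ψ) + (-1 : k) • ψ ∈ R := by
    rw [← h2, map_add, hs, map_smul, neg_one_smul, add_neg_cancel]
  have h5 : x.smulRight (s2 (q2 ψ) + (-1 : k) • ψ) =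
      x.smulRight (s2 (q2 ψ)) + (-1 : k) • x.smulRight ψ := by
    ext a e e'; simp only [LinearMap.smulRight_apply, LinearMap.smul_apply, LinearMap.add_apply,
      smul_eq_mul]; ring
  have h6 := (h3 _).2 (DecS_left hx h4)
  rw [h5, map_add, map_smul, neg_one_smul, add_neg_eq_zero] at h6
  exact h6

theorem lie_ell (h2 : ∀ t, q2 t = 0 ↔ t ∈ R) (hs : ∀ x, q2 (s2 x) = x)
    (h3 : ∀ t, q3 t = 0 ↔ t ∈ DecS R X) {x y : E →ₗ[k] k} (hx : x ∈ X) (hy : y ∈ X)
    (w : k × (E →ₗ[k] k) × Q2 × Q3) :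
    ⁅ell q2 s2 q3 x, ell q2 s2 q3 y⁆ w =
      (0, 0, w.1 • q2 (wd x y), q3 (tz (wd x y) w.2.1)) := by
  have hg : ∀ (x y : E →ₗ[k] k), x ∈ X → ell q2 s2 q3 x (ell q2 s2 q3 y w) =
      (0, 0, w.1 • q2 (x.smulRight y), q3 (x.smulRight (y.smulRight w.2.1))) := by
    intro x y hx
    rw [ell_apply, ell_apply]
    have e1 : x.smulRight (w.1 • y) = w.1 • x.smulRight y := by
      ext a e; simp only [LinearMap.smulRight_apply, LinearMap.smul_apply, smul_eq_mul]; ring
    refine Prod.ext rfl (Prod.ext ?_ (Prod.ext ?_ ?_))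
    · simp
    · simp only [e1, map_smul]
    · exact q3_s2 h2 hs h3 hx _
  rw [lie_end, hg x y hx, hg y x hy]
  have e2 : tz (wd x y) w.2.1 =
      x.smulRight (y.smulRight w.2.1) + (-1 : k) • y.smulRight (x.smulRight w.2.1) := by
    ext a e e'
    simp only [LinearMap.smulRight_apply, LinearMap.smul_apply, LinearMap.add_apply,
      smul_eq_mul, tz_apply, wd_apply]
    ring
  refine Prod.ext ?_ (Prod.ext ?_ (Prod.ext ?_ ?_))
  · simp
  · simp
  · change w.1 • q2 (x.smulRight y) - w.1 • q2 (y.smulRight x) = w.1 • q2 (wd x y)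
    rw [wd, map_add, map_smul, neg_one_smul, ← sub_eq_add_neg, smul_sub]
  · change q3 (x.smulRight (y.smulRight w.2.1)) - q3 (y.smulRight (x.smulRight w.2.1)) =
      q3 (tz (wd x y) w.2.1)
    rw [e2, map_add, map_smul, neg_one_smul, ← sub_eq_add_neg]

end Rep

attribute [local instance] instLR instLA

section Expand

variable {k : Type u} [Field k] {E : Type u} [AddCommGroup E] [Module k E]

theorem pts [FiniteDimensional k E] {X : Submodule k (E →ₗ[k] k)} {m : ℕ}
    (bX : Basis (Fin m) k X) :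
    ∃ pt : Fin m → E, ∀ f ∈ X, f = ∑ t, f (pt t) • (bX t : E →ₗ[k] k) := by
  have h : ∀ t, ∃ g : (E →ₗ[k] k) →ₗ[k] k, g ∘ₗ X.subtype = bX.coord t := fun t =>
    LinearMap.exists_extend (bX.coord t)
  choose g hg using h
  refine ⟨fun t => (evalEquiv k E).symm (g t), fun f hf => ?_⟩
  have h1 : ∀ t, f ((evalEquiv k E).symm (g t)) = bX.repr ⟨f, hf⟩ t := by
    intro t
    have h2 := apply_evalEquiv_symm_apply (R := k) (M := E) f (g t)
    rw [h2]
    have h3 := LinearMap.congr_fun (hg t) ⟨f, hf⟩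
    exact h3
  have h4 := congrArg (fun y : X => (y : E →ₗ[k] k)) (bX.sum_repr ⟨f, hf⟩)
  simp only [Submodule.coe_sum, Submodule.coe_smul] at h4
  conv_lhs => rw [← h4]
  exact Finset.sum_congr rfl fun t _ => by rw [h1]

theorem expand {X : Submodule k (E →ₗ[k] k)} {m : ℕ} {x : Fin m → E →ₗ[k] k} {pt : Fin m → E}
    (hpt : ∀ f ∈ X, f = ∑ t, f (pt t) • x t) (κ : E →ₗ[k] E →ₗ[k] E →ₗ[k] k)
    (h2 : ∀ a e, κ a e ∈ X) (h3 : ∀ a e', (κ a).flip e' ∈ X)
    (h4 : ∀ e e', (κ.flip e).flip e' ∈ X) (a e e' : E) :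
    κ a e e' = ∑ p : Fin m × Fin m × Fin m, κ (pt p.1) (pt p.2.1) (pt p.2.2) *
      (x p.1 a * (x p.2.1 e * x p.2.2 e')) := by
  have k3 : ∀ a e e', κ a e e' = ∑ v, κ a e (pt v) * x v e' := by
    intro a e e'
    have h := LinearMap.congr_fun (hpt _ (h2 a e)) e'
    simpa only [LinearMap.sum_apply, LinearMap.smul_apply, smul_eq_mul] using h
  have k2 : ∀ a e e', κ a e e' = ∑ t, κ a (pt t) e' * x t e := by
    intro a e e'
    have h := LinearMap.congr_fun (hpt _ (h3 a e')) e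
    simpa only [LinearMap.sum_apply, LinearMap.smul_apply, smul_eq_mul, LinearMap.flip_apply]
      using h
  have k1 : ∀ a e e', κ a e e' = ∑ s, κ (pt s) e e' * x s a := by
    intro a e e'
    have h := LinearMap.congr_fun (hpt _ (h4 e e')) a
    simpa only [LinearMap.sum_apply, LinearMap.smul_apply, smul_eq_mul, LinearMap.flip_apply]
      using h
  rw [Fintype.sum_prod_type, k1 a e e']
  refine Finset.sum_congr rfl fun s _ => ?_
  rw [Fintype.sum_prod_type, k2 (pt s) e e', Finset.sum_mul]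
  refine Finset.sum_congr rfl fun t _ => ?_
  rw [k3 (pt s) (pt t) e', Finset.sum_mul, Finset.sum_mul]
  refine Finset.sum_congr rfl fun v _ => ?_
  ring

end Expand

theorem core (k : Type u) [Field k] (L : Type u) [LieRing L] [LieAlgebra k L]
    (E : Type u) [AddCommGroup E] [Module k E] [FiniteDimensional k E]
    (j : (E →ₗ[k] k) →ₗ[k] L) (X : Submodule k (E →ₗ[k] k)) (htwo : (2 : k) ≠ 0)
    (κ : E →ₗ[k] E →ₗ[k] E →ₗ[k] k) (hκ1 : ∀ a e', κ a a e' = 0) (hB : Br3 j κ = 0)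
    (m : ℕ) (v : Fin m → L) (x : Fin m → E →ₗ[k] k) (hxX : ∀ t, x t ∈ X)
    (hjx : ∀ t, j (x t) = v t)
    (hker : (freeTo k L v).ker ≤ LieSubmodule.lieSpan k (FreeLieAlgebra k (Fin m))
        {r : FreeLieAlgebra k (Fin m) | r ∈ degTwo k m ∧ freeTo k L v r = 0})
    (c : Fin m × Fin m × Fin m → k)
    (hexp : ∀ a e e', κ a e e' = ∑ p : Fin m × Fin m × Fin m,
      c p * (x p.1 a * (x p.2.1 e * x p.2.2 e')))
    (Q2 Q3 : Type u) [AddCommGroup Q2] [Module k Q2] [AddCommGroup Q3] [Module k Q3]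
    (q2 : (E →ₗ[k] E →ₗ[k] k) →ₗ[k] Q2) (s2 : Q2 →ₗ[k] (E →ₗ[k] E →ₗ[k] k))
    (q3 : (E →ₗ[k] E →ₗ[k] E →ₗ[k] k) →ₗ[k] Q3)
    (h2q : ∀ t, q2 t = 0 ↔ t ∈ Rj j) (hs2 : ∀ x, q2 (s2 x) = x)
    (h3q : ∀ t, q3 t = 0 ↔ t ∈ DecS (Rj j) X) :
    Dec (Rj j) X (fun a e e' => κ a e e' - κ e e' a) := by
  classical
  obtain ⟨ρ, hρ⟩ : ∃ ρ : FreeLieAlgebra k (Fin m) →ₗ⁅k⁆
      Module.End k (k × (E →ₗ[k] k) × Q2 × Q3),
      ∀ t, ρ (FreeLieAlgebra.of k t) = ell q2 s2 q3 (x t) :=
    ⟨FreeLieAlgebra.lift k (fun t => ell q2 s2 q3 (x t)), fun t =>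
      FreeLieAlgebra.lift_of_apply _ t⟩
  have hfr : ∀ t, freeTo k L v (FreeLieAlgebra.of k t) = j (x t) := by
    intro t
    rw [hjx]
    exact FreeLieAlgebra.lift_of_apply _ t
  have hle : (freeTo k L v).ker ≤ ρ.ker := by
    refine hker.trans (LieSubmodule.lieSpan_le.mpr ?_)
    rintro r ⟨hr1, hr2⟩
    obtain ⟨d, hd⟩ := (Submodule.mem_span_range_iff_exists_fun k).mp hr1
    rw [← hd] at hr2 ⊢
    simp only [map_sum, map_smul, LieHom.map_lie, hfr] at hr2
    obtain ⟨β, hβ⟩ : ∃ β : E →ₗ[k] E →ₗ[k] k,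
        β = ∑ p : Fin m × Fin m, d p • wd (x p.1) (x p.2) := ⟨_, rfl⟩
    have hβR : β ∈ Rj j := by
      refine ⟨fun e => ?_, ?_⟩
      · rw [hβ]
        simp only [LinearMap.sum_apply, LinearMap.smul_apply, smul_eq_mul, wd_apply]
        exact Finset.sum_eq_zero fun p _ => by ring
      · have h1 : Br j β = BrL j β := rfl
        rw [h1, hβ]
        simp only [map_sum, map_smul]
        have h4 : ∀ p : Fin m × Fin m, BrL j (wd (x p.1) (x p.2)) =
            (2 : k) • ⁅j (x p.1), j (x p.2)⁆ := by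
          intro p
          rw [wd, map_add, map_smul]
          have h5 := Br_tens j (x p.1) (x p.2)
          have h6 := Br_tens j (x p.2) (x p.1)
          change BrL j _ = _ at h5
          change BrL j _ = _ at h6
          rw [h5, h6, neg_one_smul, lie_skew, two_smul]
        simp only [h4]
        have h7 : ∀ p : Fin m × Fin m, d p • (2 : k) • ⁅j (x p.1), j (x p.2)⁆ =
            (2 : k) • d p • ⁅j (x p.1), j (x p.2)⁆ := fun p => smul_comm _ _ _
        simp only [h7, ← Finset.smul_sum]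
        rw [hr2, smul_zero]
    have hβX : β ∈ Rx (Rj j) X := by
      refine ⟨hβR, fun e => ?_⟩
      rw [hβ, LinearMap.sum_apply]
      refine Submodule.sum_mem _ fun p _ => ?_
      rw [LinearMap.smul_apply]
      refine Submodule.smul_mem _ _ ?_
      have h8 : wd (x p.1) (x p.2) e = x p.1 e • x p.2 + (-1 : k) • x p.2 e • x p.1 := rfl
      rw [h8]
      exact Submodule.add_mem _ (Submodule.smul_mem _ _ (hxX _))
        (Submodule.smul_mem _ _ (Submodule.smul_mem _ _ (hxX _)))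
    have hz : ρ (∑ p : Fin m × Fin m, d p • ⁅FreeLieAlgebra.of k p.1,
        FreeLieAlgebra.of k p.2⁆) = 0 := by
      simp only [map_sum, map_smul, LieHom.map_lie, hρ]
      refine LinearMap.ext fun w => ?_
      rw [LinearMap.sum_apply, LinearMap.zero_apply]
      simp only [LinearMap.smul_apply, lie_ell h2q hs2 h3q (hxX _) (hxX _)]
      have e1 : q2 β = 0 := (h2q _).2 hβR
      have e2 : q3 (tz β w.2.1) = 0 := (h3q _).2 (DecS_right hβX _)
      have e3 : tz β w.2.1 = ∑ p : Fin m × Fin m, d p • tz (wd (x p.1) (x p.2)) w.2.1 := by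
        rw [hβ]
        ext a e e'
        simp only [tz_apply, LinearMap.sum_apply, LinearMap.smul_apply, smul_eq_mul,
          Finset.sum_mul]
        exact Finset.sum_congr rfl fun p _ => by ring
      rw [e3, map_sum] at e2
      rw [hβ, map_sum] at e1
      simp only [map_smul] at e1 e2
      refine Prod.ext ?_ (Prod.ext ?_ (Prod.ext ?_ ?_))
      · simp [Prod.fst_sum]
      · simp [Prod.fst_sum, Prod.snd_sum]
      · simp only [Prod.fst_sum, Prod.snd_sum, Prod.smul_fst, Prod.smul_snd]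
        have e4 : ∀ p : Fin m × Fin m, d p • w.1 • q2 (wd (x p.1) (x p.2)) =
            w.1 • d p • q2 (wd (x p.1) (x p.2)) := fun p => smul_comm _ _ _
        simp only [e4, ← Finset.smul_sum, e1, smul_zero]
        rfl
      · simp only [Prod.snd_sum, Prod.smul_snd]
        exact e2
    exact hz
  obtain ⟨Z, hZ⟩ : ∃ Z : FreeLieAlgebra k (Fin m), Z = ∑ p : Fin m × Fin m × Fin m, c p •
      ⁅⁅FreeLieAlgebra.of k p.1, FreeLieAlgebra.of k p.2.1⁆, FreeLieAlgebra.of k p.2.2⁆ :=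
    ⟨_, rfl⟩
  have hκL : κ = ∑ p : Fin m × Fin m × Fin m, c p •
      (x p.1).smulRight ((x p.2.1).smulRight (x p.2.2)) := by
    ext a e e'
    rw [hexp]
    simp only [LinearMap.sum_apply, LinearMap.smul_apply, LinearMap.smulRight_apply, smul_eq_mul]
  have hZ0 : freeTo k L v Z = 0 := by
    have h1 : Br3L j κ = 0 := hB
    rw [hκL, map_sum] at h1
    rw [hZ]
    simp only [map_sum, map_smul, LieHom.map_lie, hfr]
    rw [← h1]
    refine Finset.sum_congr rfl fun p _ => ?_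
    rw [map_smul]
    have h2 := Br3_tens j (x p.1) (x p.2.1) (x p.2.2)
    change Br3L j _ = _ at h2
    rw [h2]
  have hρZ : ρ Z = 0 := hle hZ0
  obtain ⟨T, hT⟩ : ∃ T : E →ₗ[k] E →ₗ[k] E →ₗ[k] k, T = ∑ p : Fin m × Fin m × Fin m, c p •
      (tz (wd (x p.1) (x p.2.1)) (x p.2.2) +
        (-1 : k) • (x p.2.2).smulRight (wd (x p.1) (x p.2.1))) := ⟨_, rfl⟩
  have hqT : q3 T = 0 := by
    have h1 := congrArg (fun f : Module.End k (k × (E →ₗ[k] k) × Q2 × Q3) =>
      (f ((1 : k), (0 : E →ₗ[k] k), (0 : Q2), (0 : Q3))).2.2.2) hρZ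
    rw [hZ] at h1
    simp only [map_sum, map_smul, LieHom.map_lie, hρ, LinearMap.sum_apply, LinearMap.smul_apply,
      Prod.snd_sum, Prod.smul_snd, LinearMap.zero_apply, Prod.snd_zero] at h1
    rw [hT, map_sum, ← h1]
    refine Finset.sum_congr rfl fun p _ => ?_
    rw [map_smul, map_add, map_smul]
    congr 1
    have hA := lie_ell (q2 := q2) (s2 := s2) (q3 := q3) h2q hs2 h3q (hxX p.1) (hxX p.2.1)
    rw [lie_end (⁅ell q2 s2 q3 (x p.1), ell q2 s2 q3 (x p.2.1)⁆), hA, hA, ell_apply,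
      ell_apply]
    simp only [one_smul, Prod.snd_sub]
    rw [q3_s2 h2q hs2 h3q (hxX p.2.2), neg_one_smul, sub_eq_add_neg]
  have hTD : T ∈ DecS (Rj j) X := (h3q T).1 hqT
  have hanti : ∀ a e e', κ e a e' = - κ a e e' := by
    intro a e e'
    have h1 := hκ1 (a + e) e'
    simp only [map_add, LinearMap.add_apply, hκ1] at h1
    linear_combination h1
  have hTv : ∀ a e e', T a e e' = 2 * (κ a e e' - κ e e' a) := by
    intro a e e'
    have h1 : T a e e' = κ a e e' - κ e a e' - κ e e' a + κ e' e a := by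
      rw [hT, hexp a e e', hexp e a e', hexp e e' a, hexp e' e a, ← Finset.sum_sub_distrib,
        ← Finset.sum_sub_distrib, ← Finset.sum_add_distrib]
      simp only [LinearMap.sum_apply, LinearMap.smul_apply, LinearMap.add_apply,
        LinearMap.smulRight_apply, smul_eq_mul, tz_apply, wd_apply]
      exact Finset.sum_congr rfl fun p _ => by ring
    rw [h1, hanti a e e', hanti e e' a]
    ring
  have hfin := Dec_smul (Rj j) X (2 : k)⁻¹ hTD
  have heq : (fun a e e' => (2 : k)⁻¹ * T a e e') = fun a e e' => κ a e e' - κ e e' a := by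
    funext a e e'
    rw [hTv]
    field_simp
  rw [heq] at hfin
  exact hfin

theorem t_REP : S_REP.{u} := by
  classical
  intro k _ L _ _ E _ _ _ j X htwo hj hq κ hκ1 hκ2 hκ3 hκ4 hB
  obtain ⟨m, b, hker⟩ := hq
  obtain ⟨bX, hbX⟩ : ∃ bX : Basis (Fin m) k X,
      bX = b.map (Submodule.equivMapOfInjective j hj X).symm := ⟨_, rfl⟩
  obtain ⟨x, hx⟩ : ∃ x : Fin m → E →ₗ[k] k, ∀ t, x t = (bX t : E →ₗ[k] k) :=
    ⟨fun t => bX t, fun _ => rfl⟩
  have hxX : ∀ t, x t ∈ X := fun t => by rw [hx]; exact (bX t).2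
  have hjx : ∀ t, j (x t) = (b t : L) := by
    intro t
    rw [hx, ← Submodule.coe_equivMapOfInjective_apply j hj X (bX t), hbX, Basis.map_apply,
      LinearEquiv.apply_symm_apply]
  obtain ⟨pt, hpt⟩ := pts bX
  have hpt' : ∀ f ∈ X, f = ∑ t, f (pt t) • x t := by
    intro f hf
    have h := hpt f hf
    simp only [← hx] at h
    exact h
  obtain ⟨c, hc⟩ : ∃ c : Fin m × Fin m × Fin m → k,
      ∀ p, c p = κ (pt p.1) (pt p.2.1) (pt p.2.2) := ⟨_, fun _ => rfl⟩
  have hexp : ∀ a e e', κ a e e' = ∑ p : Fin m × Fin m × Fin m,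
      c p * (x p.1 a * (x p.2.1 e * x p.2.2 e')) := by
    intro a e e'
    rw [expand hpt' κ hκ2 hκ3 hκ4 a e e']
    simp only [hc]
  obtain ⟨Q2, _, _, q2, s2, h2q, hs2⟩ := exQ k (E →ₗ[k] E →ₗ[k] k) (Rj j)
  obtain ⟨Q3, _, _, q3, s3, h3q, -⟩ := exQ k (E →ₗ[k] E →ₗ[k] E →ₗ[k] k) (DecS (Rj j) X)
  exact core k L E j X htwo κ hκ1 hB m (fun i => (b i : L)) x hxX hjx hker c hexp Q2 Q3 q2 s2 q3
    h2q hs2 h3q

end Pool.Agent.W612.BK
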